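import Mathlib

set_option autoImplicit false

namespace Pool.Agent.H.MP_b47357_gt

open Set Topology Function

universe u

lemma ctble_fin {ι : Type} {J : Set ι} (h : J.Countable) :
    {a : Finset ι | (a : Set ι) ⊆ J}.Countable :=
  ((countable_ofPred_finite_subset h).preimage_of_injOn
    (f := fun a : Finset ι => (a : Set ι)) Finset.coe_injective.injOn).mono
    fun a ha => And.intro a.finite_toSet ha

lemma close {ι : Type} (S : Finset ι → Set ι) (hS : ∀ a, (S a).Countable) :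
    ∃ J : Set ι, J.Countable ∧ ∀ a : Finset ι, (a : Set ι) ⊆ J → S a ⊆ J := by
  let T : ℕ → Set ι := fun n => Nat.rec ∅ (fun _ J => J ∪ ⋃ a ∈ {a : Finset ι | (a : Set ι) ⊆ J}, S a) n
  have h1 : ∀ n, (T n).Countable := by
    intro n
    induction n with
    | zero => exact countable_empty
    | succ n ih =>
      exact ih.union (Countable.biUnion (ctble_fin ih) fun a _ => hS a)
  have h2 : Monotone T := monotone_nat_of_le_succ fun n => subset_union_left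
  refine ⟨⋃ n, T n, countable_iUnion h1, fun a ha => ?_⟩
  obtain ⟨n, hn⟩ := h2.directed_le.exists_mem_subset_of_finset_subset_biUnion ha
  exact (subset_biUnion_of_mem (u := S) (s := {a : Finset ι | (a : Set ι) ⊆ T n}) hn).trans
    (subset_union_right.trans (subset_iUnion T (n + 1)))

lemma nhds_cyl {ι : Type} {X : Set (ι → Bool)} {x : X} {U : Set X} (hU : IsOpen U) (hx : x ∈ U) :
    ∃ F : Finset ι, ∀ z : X, (∀ i ∈ F, z.1 i = x.1 i) → z ∈ U := by
  obtain ⟨V, hV, rfl⟩ := isOpen_induced_iff.1 hU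
  obtain ⟨F, u, h1, h2⟩ := isOpen_pi_iff.1 hV x.1 hx
  exact ⟨F, fun z hz => h2 fun i hi => by rw [hz i hi]; exact (h1 i hi).2⟩

theorem prod_wl {ι : Type} {X : Set (ι → Bool)}
    (hX : ∀ (D : Finset ι) (z : ι → Bool), ∃ x ∈ X, ∀ i ∈ D, x i = z i)
    (Y : Type u) [TopologicalSpace Y]
    (hY : ∀ 𝒰 : Set (Set Y), (∀ U ∈ 𝒰, IsOpen U) → ⋃₀ 𝒰 = univ →
      ∃ 𝒱 ⊆ 𝒰, 𝒱.Countable ∧ Dense (⋃₀ 𝒱))
    (𝒰 : Set (Set (X × Y))) (h1 : ∀ U ∈ 𝒰, IsOpen U) (h2 : ⋃₀ 𝒰 = univ) :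
    ∃ 𝒱 ⊆ 𝒰, 𝒱.Countable ∧ Dense (⋃₀ 𝒱) := by
  classical
  have h3 : ∀ x : X, ∃ (𝒱 : Set (Set (X × Y))) (S : Set ι), 𝒱 ⊆ 𝒰 ∧ 𝒱.Countable ∧ S.Countable ∧
      ∀ W : Set Y, IsOpen W → W.Nonempty → ∃ y ∈ W, ∃ F : Finset ι, (F : Set ι) ⊆ S ∧
        ∀ z : X, (∀ i ∈ F, z.1 i = x.1 i) → (z, y) ∈ ⋃₀ 𝒱 := by
    intro x
    obtain ⟨𝒲, h4, h5, h6⟩ := hY {V | IsOpen V ∧ ∃ U ∈ 𝒰, ∃ F : Finset ι,
        ∀ z : X, (∀ i ∈ F, z.1 i = x.1 i) → ∀ y ∈ V, (z, y) ∈ U} (fun V h => h.1) (by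
      refine eq_univ_of_forall fun y => ?_
      obtain ⟨U, h4, h5⟩ : (x, y) ∈ ⋃₀ 𝒰 := h2 ▸ mem_univ _
      obtain ⟨A, V, h6, h7, h8, h9, h10⟩ := isOpen_prod_iff.1 (h1 U h4) x y h5
      obtain ⟨F, hF⟩ := nhds_cyl h6 h8
      exact ⟨V, ⟨h7, U, h4, F, fun z hz y hy => h10 ⟨hF z hz, hy⟩⟩, h9⟩)
    choose! U h7 F h8 using fun V (hV : V ∈ 𝒲) => (h4 hV).2
    refine ⟨U '' 𝒲, ⋃ V ∈ 𝒲, F V, image_subset_iff.2 h7, h5.image _,
      h5.biUnion fun V _ => (F V).countable_toSet, fun W hW hne => ?_⟩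
    obtain ⟨y, h9, V, h10, h11⟩ := h6.inter_open_nonempty W hW hne
    exact ⟨y, h9, F V, subset_biUnion_of_mem (u := fun V => (F V : Set ι)) h10,
      fun z hz => ⟨U V, ⟨V, h10, rfl⟩, h8 V h10 z hz y h11⟩⟩
  choose 𝒱 S h4 h5 h6 h7 using h3
  choose p hp hp' using fun (D E : Finset ι) => hX D fun i => decide (i ∈ E)
  obtain ⟨J, h8, h9⟩ := close (fun D => ⋃ E ∈ D.powerset, S ⟨p D E, hp D E⟩)
    fun D => D.powerset.countable_toSet.biUnion fun _ _ => h6 _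
  refine ⟨⋃ D ∈ {D : Finset ι | (D : Set ι) ⊆ J}, ⋃ E ∈ D.powerset, 𝒱 ⟨p D E, hp D E⟩,
    iUnion₂_subset fun D _ => iUnion₂_subset fun E _ => h4 _,
    Countable.biUnion ?_ fun D _ => D.powerset.countable_toSet.biUnion fun _ _ => h5 _, ?_⟩
  · exact ctble_fin h8
  · refine dense_iff_inter_open.2 ?_
    rintro O hO ⟨⟨x, y⟩, hxy⟩
    obtain ⟨A, W, a1, a2, a3, a4, a5⟩ := isOpen_prod_iff.1 hO x y hxy
    obtain ⟨G, hG⟩ := nhds_cyl a1 a3
    let D := G.filter (· ∈ J)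
    let E := D.filter fun i => x.1 i = true
    have d1 : (D : Set ι) ⊆ J := fun i hi => (Finset.mem_filter.1 hi).2
    have e1 : E ∈ D.powerset := Finset.mem_powerset.2 (Finset.filter_subset _ _)
    obtain ⟨y', b1, F, b2, b3⟩ := h7 ⟨p D E, hp D E⟩ W a2 ⟨y, a4⟩
    obtain ⟨z, c1, c2⟩ := hX (F ∪ G) fun i => if i ∈ G then x.1 i else p D E i
    refine ⟨(⟨z, c1⟩, y'), a5 ⟨hG _ fun i hi => ?_, b1⟩, ?_⟩
    · simpa [hi] using c2 i (Finset.mem_union_right _ hi)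
    · obtain ⟨V, v1, v2⟩ := b3 ⟨z, c1⟩ fun i hi => by
        have := c2 i (Finset.mem_union_left _ hi)
        by_cases h : i ∈ G
        · have hD : i ∈ D := Finset.mem_filter.2 ⟨h, h9 D d1 (mem_biUnion e1 (b2 hi))⟩
          simp only [this, if_pos h, hp' D E i hD, E, Finset.mem_filter, hD, true_and,
            Bool.decide_eq_true]
        · simpa [h] using this
      exact ⟨V, mem_biUnion d1 (mem_biUnion e1 v1), v2⟩

open Classical in
noncomputable def pt (a : Finset ℝ) : ℝ ⊕ ℕ → Bool :=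
  Sum.elim (fun i => decide (i ∈ a)) a.card.testBit

def XX : Set (ℝ ⊕ ℕ → Bool) := range pt

lemma XX_dense (D : Finset (ℝ ⊕ ℕ)) (z : ℝ ⊕ ℕ → Bool) : ∃ x ∈ XX, ∀ i ∈ D, x i = z i := by
  classical
  obtain ⟨N, hN⟩ := D.toRight.exists_nat_subset_range
  let m := 2 ^ N * D.toLeft.card + Nat.ofBits fun j : Fin N => z (.inr j)
  let D0 := D.toLeft.filter fun i => ¬ z (.inl i) = true
  have h0 : D.toLeft.card ≤ m + D0.card := by
    have := Nat.le_mul_of_pos_left D.toLeft.card (Nat.two_pow_pos N)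
    omega
  obtain ⟨t, h1, h2⟩ := Infinite.exists_superset_card_eq D.toLeft (m + D0.card) h0
  have h3 : (t \ D0).card = m := by
    rw [Finset.card_sdiff_of_subset ((Finset.filter_subset _ _).trans h1), h2, Nat.add_sub_cancel]
  refine ⟨_, ⟨t \ D0, rfl⟩, ?_⟩
  rintro (i | j) hi
  · have h4 := Finset.mem_toLeft.2 hi
    simp [pt, D0, hi, h1 h4]
  · have h4 := Finset.mem_range.1 (hN (Finset.mem_toRight.2 hi))
    simp only [pt, Sum.elim_inr, h3, m]
    rw [Nat.testBit_two_pow_mul_add _ (Nat.ofBits_lt_two_pow _), if_pos h4, Nat.testBit_ofBits_lt _ _ h4]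

lemma lev_closed (m : ℕ) (s : Set XX) (hs : ∀ x ∈ s, ∃ a : Finset ℝ, a.card = m ∧ x.1 = pt a) :
    IsClosed s := by
  classical
  refine isClosed_iff_nhds.2 ?_
  rintro ⟨_, a, rfl⟩ h
  have c : ∀ i, Continuous fun z : XX => z.1 i := fun i =>
    (continuous_apply i).comp continuous_subtype_val
  have h1 : a.card = m := by
    refine Nat.eq_of_testBit_eq fun j => ?_
    obtain ⟨x, h1, h2⟩ := h _ (((isOpen_discrete {pt a (.inr j)}).preimage (c (.inr j))).mem_nhds rfl)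
    obtain ⟨b, rfl, e⟩ := hs x h2
    have h3 : x.1 (.inr j) = pt a (.inr j) := h1
    rw [e] at h3
    exact h3.symm
  obtain ⟨x, h2, h3⟩ := h _ ((isOpen_biInter_finset (s := a) fun i _ =>
    (isOpen_discrete {true}).preimage (c (.inl i))).mem_nhds (by simp [pt]))
  obtain ⟨b, h4, e⟩ := hs x h3
  have h5 : a = b := Finset.eq_of_subset_of_card_le (fun i hi => by
    have : x.1 (.inl i) = true := mem_iInter₂.1 h2 i hi
    simpa [e, pt] using this) (by omega)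
  convert h3
  rw [e, h5]

def Lv (m : ℕ) : Set XX := {x | ∃ a : Finset ℝ, a.card = m ∧ x.1 = pt a}

lemma Lv_cover (x : XX) : ∃ m, x ∈ Lv m := let ⟨a, h⟩ := x.2; ⟨_, a, rfl, h.symm⟩

lemma all_gdelta (s : Set XX) : IsGδ s := by
  have : s = ⋂ m, (Lv m \ s)ᶜ := by
    ext x
    simp only [mem_iInter, mem_compl_iff, mem_sdiff, not_and, not_not]
    exact ⟨fun h _ _ => h, fun h => let ⟨m, hm⟩ := Lv_cover x; h m hm⟩
  rw [this]
  exact .iInter fun m => (lev_closed m _ fun x hx => hx.1).isOpen_compl.isGδ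

lemma compact_ctble {C : Set XX} (hC : IsCompact C) : C.Countable := by
  have : C = ⋃ m, C ∩ Lv m := by
    rw [← inter_iUnion, eq_univ_of_forall fun x => mem_iUnion.2 (Lv_cover x), inter_univ]
  rw [this]
  refine countable_iUnion fun m => Finite.countable ?_
  refine (hC.inter_right (lev_closed m _ fun x hx => hx)).finite ?_
  refine isDiscrete_iff_forall_mem_exists_isOpen.2 fun x hx =>
    ⟨((C ∩ Lv m) \ {x})ᶜ, (lev_closed m _ fun y hy => hy.1.2).isOpen_compl, ?_⟩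
  ext y
  simp only [mem_inter_iff, mem_compl_iff, mem_sdiff, mem_singleton_iff, not_and, not_not]
  exact ⟨fun h => h.1 h.2, fun h => ⟨fun _ => h, by rw [h]; exact hx⟩⟩

lemma not_dense {s : Set XX} (hs : s.Countable) : ¬ Dense s := by
  classical
  intro h
  choose a ha using fun x : XX => x.2
  have h1 : (⋃ x ∈ s, (a x : Set ℝ)).Countable := hs.biUnion fun x _ => (a x).countable_toSet
  obtain ⟨i, hi⟩ : ∃ i, i ∉ ⋃ x ∈ s, (a x : Set ℝ) := by
    by_contra h2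
    push Not at h2
    exact not_countable_univ (h1.mono fun i _ => h2 i)
  have c : Continuous fun z : XX => z.1 (.inl i) := (continuous_apply _).comp continuous_subtype_val
  obtain ⟨x, h2, h3⟩ := h.inter_open_nonempty _ ((isOpen_discrete {true}).preimage c)
    ⟨⟨_, {i}, rfl⟩, by simp [pt]⟩
  refine hi (mem_biUnion h3 ?_)
  have : x.1 (.inl i) = true := h2
  simpa [← ha x, pt] using this

end Pool.Agent.H.MP_b47357_gt
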